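import Mathlib

set_option autoImplicit false

open Polynomial Finset

namespace IS52

/-- The `L^2(0,1)` norm of a complex polynomial. -/
noncomputable def L2 (p : ℂ[X]) : ℝ := Real.sqrt (∫ s in (0:ℝ)..1, ‖p.eval (s:ℂ)‖ ^ 2)

theorem L2_nonneg (p : ℂ[X]) : 0 ≤ L2 p := Real.sqrt_nonneg _

theorem cont_eval (p : ℂ[X]) : Continuous fun s : ℝ => p.eval (s:ℂ) :=
  p.continuous.comp Complex.continuous_ofReal

theorem eval_eq_integral (p : ℂ[X]) (h0 : p.eval 0 = 0) (s : ℝ) :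
    p.eval (s:ℂ) = ∫ u in (0:ℝ)..s, (derivative p).eval (u:ℂ) := by
  have h : ∀ u ∈ Set.uIcc (0:ℝ) s,
      HasDerivAt (fun u : ℝ => p.eval (u:ℂ)) ((derivative p).eval (u:ℂ)) u := by
    intro u _
    exact (p.hasDerivAt (u:ℂ)).comp_ofReal
  have := intervalIntegral.integral_eq_sub_of_hasDerivAt h
    ((cont_eval (derivative p)).intervalIntegrable _ _)
  rw [this]; simp [h0]

theorem integral_le_sqrt (g : ℝ → ℝ) (hg : Continuous g) :
    ∫ s in (0:ℝ)..1, g s ≤ Real.sqrt (∫ s in (0:ℝ)..1, g s ^ 2) := by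
  set c := ∫ s in (0:ℝ)..1, g s with hc
  have h1 : 0 ≤ ∫ s in (0:ℝ)..1, (g s - c) ^ 2 :=
    intervalIntegral.integral_nonneg (by norm_num) (fun _ _ => sq_nonneg _)
  have h2 : ∫ s in (0:ℝ)..1, (g s - c) ^ 2 = (∫ s in (0:ℝ)..1, g s ^ 2) - c ^ 2 := by
    have e : (fun s => (g s - c) ^ 2) = fun s => (g s ^ 2 - (2 * c) * g s) + c ^ 2 := by
      funext s; ring
    have i1 : IntervalIntegrable (fun s => g s ^ 2) MeasureTheory.volume 0 1 :=
      (hg.pow 2).intervalIntegrable _ _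
    have i2 : IntervalIntegrable (fun s => (2 * c) * g s) MeasureTheory.volume 0 1 :=
      (continuous_const.mul hg).intervalIntegrable _ _
    rw [e, intervalIntegral.integral_add (i1.sub i2) (by simp),
      intervalIntegral.integral_sub i1 i2, intervalIntegral.integral_const_mul]
    simp [← hc]; ring
  apply Real.le_sqrt_of_sq_le
  linarith

theorem norm_eval_le_L2 (p : ℂ[X]) (h0 : p.eval 0 = 0) (s : ℝ) (hs0 : 0 ≤ s) (hs1 : s ≤ 1) :
    ‖p.eval (s:ℂ)‖ ≤ L2 (derivative p) := by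
  rw [eval_eq_integral p h0 s]
  have hc : Continuous fun u : ℝ => ‖(derivative p).eval (u:ℂ)‖ := (cont_eval _).norm
  calc ‖∫ u in (0:ℝ)..s, (derivative p).eval (u:ℂ)‖
      ≤ ∫ u in (0:ℝ)..s, ‖(derivative p).eval (u:ℂ)‖ :=
        intervalIntegral.norm_integral_le_integral_norm hs0
    _ ≤ ∫ u in (0:ℝ)..1, ‖(derivative p).eval (u:ℂ)‖ :=
        intervalIntegral.integral_mono_interval le_rfl hs0 hs1
          (Filter.Eventually.of_forall fun _ => norm_nonneg _) (hc.intervalIntegrable _ _)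
    _ ≤ _ := integral_le_sqrt _ hc

theorem norm_eval_step (p : ℂ[X]) (h0 : p.eval 0 = 0) (n : ℕ) (M : ℝ) (hM : 0 ≤ M)
    (h : ∀ u : ℝ, 0 ≤ u → u ≤ 1 → ‖(derivative p).eval (u:ℂ)‖ ≤ u ^ n * M)
    (s : ℝ) (hs0 : 0 ≤ s) (hs1 : s ≤ 1) : ‖p.eval (s:ℂ)‖ ≤ s ^ (n + 1) * M := by
  rw [eval_eq_integral p h0 s]
  have : ‖∫ u in (0:ℝ)..s, (derivative p).eval (u:ℂ)‖ ≤ (s ^ n * M) * |s - 0| := by
    apply intervalIntegral.norm_integral_le_of_norm_le_const
    intro u hu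
    rw [Set.uIoc_of_le hs0] at hu
    refine (h u hu.1.le (hu.2.trans hs1)).trans ?_
    exact mul_le_mul_of_nonneg_right (pow_le_pow_left₀ hu.1.le hu.2 n) hM
  rw [sub_zero, abs_of_nonneg hs0] at this
  calc _ ≤ s ^ n * M * s := this
    _ = s ^ (n + 1) * M := by ring

theorem iter_eval_zero (P : ℂ[X]) (m i : ℕ) (h : X ^ m ∣ P) (hi : i < m) :
    (derivative^[i] P).eval 0 = 0 := by
  rw [← coeff_zero_eq_eval_zero, coeff_iterate_derivative]
  have := (X_pow_dvd_iff.1 h) (0 + i) (by omega)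
  rw [this]; simp

/-- `|P(s)| ≤ s^4 |P^{(5)}|_{L^2}` when `P` vanishes to order 5 at `0`. -/
theorem norm_eval_le_pow4 (P : ℂ[X]) (h5 : X ^ 5 ∣ P) (s : ℝ) (hs0 : 0 ≤ s) (hs1 : s ≤ 1) :
    ‖P.eval (s:ℂ)‖ ≤ s ^ 4 * L2 (derivative^[5] P) := by
  set M := L2 (derivative^[5] P)
  have hM : 0 ≤ M := L2_nonneg _
  have key : ∀ n, n ≤ 4 → ∀ u : ℝ, 0 ≤ u → u ≤ 1 →
      ‖(derivative^[4 - n] P).eval (u:ℂ)‖ ≤ u ^ n * M := by
    intro n
    induction n with
    | zero =>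
      intro _ u hu0 hu1
      have := norm_eval_le_L2 (derivative^[4] P) (iter_eval_zero P 5 4 h5 (by norm_num)) u hu0 hu1
      rw [← Function.iterate_succ_apply' derivative 4 P] at this
      rw [pow_zero, one_mul]
      exact this
    | succ n ih =>
      intro hn u hu0 hu1
      apply norm_eval_step _ (iter_eval_zero P 5 _ h5 (by omega)) n M hM _ u hu0 hu1
      intro v hv0 hv1
      rw [← Function.iterate_succ_apply' derivative (4 - (n + 1)) P]
      have e : (4 - (n + 1)).succ = 4 - n := by omega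
      rw [e]
      exact ih (by omega) v hv0 hv1
  simpa using key 4 le_rfl s hs0 hs1

/-- lower binomial tail -/
noncomputable def tailR (N J : ℕ) (s : ℝ) : ℝ :=
  ∑ i ∈ (range (N + 1)).filter (fun i => ¬ J ≤ i), s ^ i * (1 - s) ^ (N - i) * (N.choose i : ℝ)

theorem tailR_nonneg (N J : ℕ) (s : ℝ) (hs0 : 0 ≤ s) (hs1 : s ≤ 1) : 0 ≤ tailR N J s := by
  have : 0 ≤ 1 - s := by linarith
  exact sum_nonneg fun i _ => by positivity

theorem tailR_le_one (N J : ℕ) (s : ℝ) (hs0 : 0 ≤ s) (hs1 : s ≤ 1) : tailR N J s ≤ 1 := by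
  have h1 : 0 ≤ 1 - s := by linarith
  calc tailR N J s ≤ ∑ i ∈ range (N + 1), s ^ i * (1 - s) ^ (N - i) * (N.choose i : ℝ) :=
        sum_le_sum_of_subset_of_nonneg (filter_subset _ _) fun i _ _ => by positivity
    _ = (s + (1 - s)) ^ N := (add_pow s (1 - s) N).symm
    _ = 1 := by simp

theorem tailR_le_exp (N J : ℕ) (s : ℝ) (hs0 : 0 ≤ s) (hs1 : s ≤ 1) :
    tailR N J s ≤ 2 ^ J * Real.exp (-(N * s / 2)) := by
  have h1 : 0 ≤ 1 - s := by linarith
  calc tailR N J s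
      ≤ ∑ i ∈ (range (N + 1)).filter (fun i => ¬ J ≤ i),
          2 ^ J * ((s / 2) ^ i * (1 - s) ^ (N - i) * (N.choose i : ℝ)) := by
        apply sum_le_sum
        intro i hi
        have hi' : i ≤ J := by have := (mem_filter.1 hi).2; omega
        have h2 : (2:ℝ) ^ i ≤ 2 ^ J := pow_le_pow_right₀ (by norm_num) hi'
        have e : s ^ i = 2 ^ i * (s / 2) ^ i := by rw [← mul_pow]; congr 1; ring
        rw [e]
        have : 0 ≤ (s / 2) ^ i * (1 - s) ^ (N - i) * (N.choose i : ℝ) := by positivity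
        calc 2 ^ i * (s / 2) ^ i * (1 - s) ^ (N - i) * (N.choose i : ℝ)
            = 2 ^ i * ((s / 2) ^ i * (1 - s) ^ (N - i) * (N.choose i : ℝ)) := by ring
          _ ≤ _ := mul_le_mul_of_nonneg_right h2 this
    _ ≤ ∑ i ∈ range (N + 1), 2 ^ J * ((s / 2) ^ i * (1 - s) ^ (N - i) * (N.choose i : ℝ)) :=
        sum_le_sum_of_subset_of_nonneg (filter_subset _ _) fun i _ _ => by positivity
    _ = 2 ^ J * (s / 2 + (1 - s)) ^ N := by rw [← mul_sum, add_pow]
    _ ≤ 2 ^ J * Real.exp (-(N * s / 2)) := by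
        apply mul_le_mul_of_nonneg_left _ (by positivity)
        have e : Real.exp (-(N * s / 2)) = Real.exp (-(s / 2)) ^ N := by
          rw [← Real.exp_nat_mul]; congr 1; ring
        rw [e]
        apply pow_le_pow_left₀ (by linarith)
        have := Real.add_one_le_exp (-(s / 2))
        linarith

theorem pow4_tailR_le (N J : ℕ) (hN : 1 ≤ N) (s : ℝ) (hs0 : 0 ≤ s) (hs1 : s ≤ 1) :
    s ^ 4 * tailR N J s ≤ min 1 (6144 * ((J:ℝ) / N) ^ 4) := by
  have hN' : (0:ℝ) < N := by exact_mod_cast hN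
  have t0 := tailR_nonneg N J s hs0 hs1
  have t1 := tailR_le_one N J s hs0 hs1
  have s4 : s ^ 4 ≤ 1 := pow_le_one₀ hs0 hs1
  have s40 : 0 ≤ s ^ 4 := by positivity
  refine le_min (by nlinarith) ?_
  rcases Nat.eq_zero_or_pos J with hJ | hJ
  · subst hJ
    simp [tailR]
  have hJ' : (1:ℝ) ≤ J := by exact_mod_cast hJ
  by_cases hs : s ≤ 4 * ((J:ℝ) / N)
  · have h1 : s ^ 4 ≤ (4 * ((J:ℝ) / N)) ^ 4 := pow_le_pow_left₀ hs0 hs 4
    have h2 : 0 ≤ ((J:ℝ) / N) ^ 4 := by positivity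
    have h3 : s ^ 4 * tailR N J s ≤ s ^ 4 := by nlinarith
    nlinarith
  · push Not at hs
    have hspos : 0 < s := lt_of_le_of_lt (by positivity) hs
    have hJs : (J:ℝ) ≤ N * s / 4 := by
      have : 4 * (J:ℝ) < s * N := by
        have := mul_lt_mul_of_pos_right hs hN'
        rwa [mul_assoc, div_mul_cancel₀ _ hN'.ne'] at this
      nlinarith
    have h2J : (2:ℝ) ^ J ≤ Real.exp (N * s / 4) := by
      calc (2:ℝ) ^ J ≤ Real.exp 1 ^ J := by
            apply pow_le_pow_left₀ (by norm_num)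
            have := Real.add_one_le_exp (1:ℝ); linarith
        _ = Real.exp J := by rw [← Real.exp_nat_mul]; simp
        _ ≤ _ := Real.exp_le_exp.2 hJs
    have hx : 0 < N * s / 4 := by positivity
    have he := Real.pow_div_factorial_le_exp (N * s / 4) hx.le 4
    have hf : ((Nat.factorial 4 : ℕ) : ℝ) = 24 := by norm_num [Nat.factorial]
    rw [hf] at he
    have hE : 0 < Real.exp (N * s / 4) := Real.exp_pos _
    have h3 : tailR N J s ≤ (Real.exp (N * s / 4))⁻¹ := by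
      calc tailR N J s ≤ 2 ^ J * Real.exp (-(N * s / 2)) := tailR_le_exp N J s hs0 hs1
        _ ≤ Real.exp (N * s / 4) * Real.exp (-(N * s / 2)) :=
            mul_le_mul_of_nonneg_right h2J (Real.exp_pos _).le
        _ = (Real.exp (N * s / 4))⁻¹ := by
            rw [← Real.exp_add, ← Real.exp_neg]; congr 1; ring
    have h4 : s ^ 4 * (Real.exp (N * s / 4))⁻¹ ≤ 6144 * ((1:ℝ) / N) ^ 4 := by
      rw [← div_eq_mul_inv, div_le_iff₀ hE]
      have : s ^ 4 = 6144 * ((1:ℝ) / N) ^ 4 * ((N * s / 4) ^ 4 / 24) := by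
        field_simp; norm_num
      rw [this]
      exact mul_le_mul_of_nonneg_left he (by positivity)
    have h5 : ((1:ℝ) / N) ^ 4 ≤ ((J:ℝ) / N) ^ 4 :=
      pow_le_pow_left₀ (by positivity) (div_le_div_of_nonneg_right hJ' hN'.le) 4
    calc s ^ 4 * tailR N J s ≤ s ^ 4 * (Real.exp (N * s / 4))⁻¹ :=
          mul_le_mul_of_nonneg_left h3 s40
      _ ≤ _ := h4.trans (by linarith)

/-- upper Bernstein sum -/
noncomputable def QJ (N J : ℕ) : ℂ[X] :=
  ∑ i ∈ (range (N + 1)).filter (fun i => J ≤ i), X ^ i * (1 - X) ^ (N - i) * (N.choose i : ℂ[X])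

theorem QJ_dvd (N J : ℕ) : X ^ J ∣ QJ N J := by
  apply dvd_sum
  intro i hi
  exact ((pow_dvd_pow X (mem_filter.1 hi).2).mul_right _).mul_right _

theorem QJ_natDegree (N J : ℕ) : (QJ N J).natDegree ≤ N := by
  apply natDegree_sum_le_of_forall_le
  intro i hi
  have hi' : i ≤ N := by have := mem_range.1 (mem_filter.1 hi).1; omega
  have h1 : ((1 - X : ℂ[X])).natDegree ≤ 1 := by
    refine (natDegree_sub_le _ _).trans ?_
    simp
  have h2 : ((1 - X : ℂ[X]) ^ (N - i)).natDegree ≤ N - i := by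
    refine natDegree_pow_le.trans ?_
    calc (N - i) * (1 - X : ℂ[X]).natDegree ≤ (N - i) * 1 := Nat.mul_le_mul_left _ h1
      _ = N - i := by simp
  have h3 : ((X : ℂ[X]) ^ i).natDegree ≤ i := natDegree_X_pow_le i
  have h4 : ((N.choose i : ℕ) : ℂ[X]).natDegree = 0 := natDegree_natCast _
  calc _ ≤ (X ^ i * (1 - X : ℂ[X]) ^ (N - i)).natDegree + ((N.choose i : ℕ) : ℂ[X]).natDegree :=
        natDegree_mul_le
    _ ≤ (i + (N - i)) + 0 := by
        rw [h4]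
        exact Nat.add_le_add_right (natDegree_mul_le.trans (Nat.add_le_add h3 h2)) 0
    _ = N := by omega

theorem one_sub_QJ_eval (N J : ℕ) (s : ℝ) :
    1 - (QJ N J).eval (s:ℂ) = ((tailR N J s : ℝ) : ℂ) := by
  have h := sum_filter_add_sum_filter_not (range (N + 1)) (fun i => J ≤ i)
    (fun i => (s:ℂ) ^ i * (1 - s) ^ (N - i) * (N.choose i : ℂ))
  have h1 : ∑ i ∈ range (N + 1), (s:ℂ) ^ i * (1 - s) ^ (N - i) * (N.choose i : ℂ) = 1 := by
    rw [← add_pow]; simp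
  rw [h1] at h
  have e1 : (QJ N J).eval (s:ℂ) = ∑ i ∈ (range (N + 1)).filter (fun i => J ≤ i),
      (s:ℂ) ^ i * (1 - s) ^ (N - i) * (N.choose i : ℂ) := by
    simp [QJ, eval_finsetSum]
  have e2 : ((tailR N J s : ℝ) : ℂ) = ∑ i ∈ (range (N + 1)).filter (fun i => ¬ J ≤ i),
      (s:ℂ) ^ i * (1 - s) ^ (N - i) * (N.choose i : ℂ) := by
    simp [tailR]
  rw [e1, e2]; linear_combination -h

theorem L2_le_of_sup (p : ℂ[X]) (B : ℝ) (hB : 0 ≤ B)
    (h : ∀ s : ℝ, 0 ≤ s → s ≤ 1 → ‖p.eval (s:ℂ)‖ ≤ B) : L2 p ≤ B := by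
  unfold L2
  apply Real.sqrt_le_iff.2 ⟨hB, ?_⟩
  have : ∫ s in (0:ℝ)..1, ‖p.eval (s:ℂ)‖ ^ 2 ≤ ∫ _s in (0:ℝ)..1, B ^ 2 := by
    apply intervalIntegral.integral_mono_on (by norm_num)
      (((cont_eval p).norm.pow 2).intervalIntegrable _ _) (by simp)
    intro s hs
    exact pow_le_pow_left₀ (norm_nonneg _) (h s hs.1 hs.2) 2
  simpa using this

/-- Bernstein cutoff of (C1). -/
theorem cutoff (P : ℂ[X]) (h5 : X ^ 5 ∣ P) (N J : ℕ) (hN : 1 ≤ N) :
    ∃ h : ℂ[X], h.natDegree ≤ P.natDegree + N ∧ X ^ J ∣ h ∧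
      L2 (P - h) ≤ min 1 (6144 * ((J:ℝ) / N) ^ 4) * L2 (derivative^[5] P) := by
  refine ⟨P * QJ N J, natDegree_mul_le.trans (Nat.add_le_add_left (QJ_natDegree N J) _),
    (QJ_dvd N J).mul_left _, ?_⟩
  have hM : 0 ≤ L2 (derivative^[5] P) := L2_nonneg _
  apply L2_le_of_sup
  · exact mul_nonneg (le_min (by norm_num) (by positivity)) hM
  intro s hs0 hs1
  have e : (P - P * QJ N J).eval (s:ℂ) = P.eval (s:ℂ) * ((tailR N J s : ℝ) : ℂ) := by
    rw [← one_sub_QJ_eval]; simp; ring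
  have t0 := tailR_nonneg N J s hs0 hs1
  rw [e, norm_mul, Complex.norm_real, Real.norm_of_nonneg t0]
  calc ‖P.eval (s:ℂ)‖ * tailR N J s ≤ s ^ 4 * L2 (derivative^[5] P) * tailR N J s :=
        mul_le_mul_of_nonneg_right (norm_eval_le_pow4 P h5 s hs0 hs1) t0
    _ = (s ^ 4 * tailR N J s) * L2 (derivative^[5] P) := by ring
    _ ≤ _ := mul_le_mul_of_nonneg_right (pow4_tailR_le N J hN s hs0 hs1) hM

end IS52
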