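import Pool.Agent.P.MP_f981b0_an.IS52.Cutoff

set_option autoImplicit false

open Polynomial Finset

namespace IS52

theorem L2_zero : L2 (0 : ℂ[X]) = 0 := by simp [L2]

theorem L2_le_deriv5 (P : ℂ[X]) (h5 : X ^ 5 ∣ P) : L2 P ≤ L2 (derivative^[5] P) := by
  have hM : 0 ≤ L2 (derivative^[5] P) := L2_nonneg _
  apply L2_le_of_sup _ _ hM
  intro s hs0 hs1
  refine (norm_eval_le_pow4 P h5 s hs0 hs1).trans ?_
  exact mul_le_of_le_one_left hM (pow_le_one₀ hs0 hs1)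

/-- The cutoff with the additional bound on the cut function. -/
theorem cutoff' (P : ℂ[X]) (h5 : X ^ 5 ∣ P) (N J : ℕ) (hN : 1 ≤ N) :
    ∃ h : ℂ[X], h.natDegree ≤ P.natDegree + N ∧ X ^ J ∣ h ∧ L2 h ≤ L2 (derivative^[5] P) ∧
      L2 (P - h) ≤ min 1 (6144 * ((J:ℝ) / N) ^ 4) * L2 (derivative^[5] P) := by
  have hM : 0 ≤ L2 (derivative^[5] P) := L2_nonneg _
  refine ⟨P * QJ N J, natDegree_mul_le.trans (Nat.add_le_add_left (QJ_natDegree N J) _),
    (QJ_dvd N J).mul_left _, ?_, ?_⟩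
  · apply L2_le_of_sup _ _ hM
    intro s hs0 hs1
    have e : (P * QJ N J).eval (s:ℂ) = P.eval (s:ℂ) * ((1 - tailR N J s : ℝ) : ℂ) := by
      have := one_sub_QJ_eval N J s
      rw [eval_mul]; push_cast; rw [← this]; ring
    have t0 := tailR_nonneg N J s hs0 hs1
    have t1 := tailR_le_one N J s hs0 hs1
    rw [e, norm_mul, Complex.norm_real, Real.norm_of_nonneg (by linarith)]
    have h1 : ‖P.eval (s:ℂ)‖ ≤ L2 (derivative^[5] P) :=
      (norm_eval_le_pow4 P h5 s hs0 hs1).trans (mul_le_of_le_one_left hM (pow_le_one₀ hs0 hs1))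
    have h2 := norm_nonneg (P.eval (s:ℂ))
    nlinarith
  · apply L2_le_of_sup
    · exact mul_nonneg (le_min (by norm_num) (by positivity)) hM
    intro s hs0 hs1
    have e : (P - P * QJ N J).eval (s:ℂ) = P.eval (s:ℂ) * ((tailR N J s : ℝ) : ℂ) := by
      rw [← one_sub_QJ_eval]; simp; ring
    have t0 := tailR_nonneg N J s hs0 hs1
    rw [e, norm_mul, Complex.norm_real, Real.norm_of_nonneg t0]
    calc ‖P.eval (s:ℂ)‖ * tailR N J s ≤ s ^ 4 * L2 (derivative^[5] P) * tailR N J s :=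
          mul_le_mul_of_nonneg_right (norm_eval_le_pow4 P h5 s hs0 hs1) t0
      _ = (s ^ 4 * tailR N J s) * L2 (derivative^[5] P) := by ring
      _ ≤ _ := mul_le_mul_of_nonneg_right (pow4_tailR_le N J hN s hs0 hs1) hM

/-- the weights of the Cauchy-Schwarz step -/
noncomputable def aw (L : ℕ) (A : ℝ) (k : ℕ) : ℝ :=
  if k ≤ L then 1 else min 1 (A / ((k:ℝ) - L))

theorem sum_min_sq (A : ℝ) (hA : 0 ≤ A) (n : ℕ) :
    ∑ m ∈ range n, (min 1 (A / ((m:ℝ) + 1))) ^ 2 ≤ 4 * A := by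
  rcases hA.eq_or_lt with h0 | hA
  · subst h0; simp
  have key : ∀ n : ℕ, ∑ m ∈ range n, (min 1 (A / ((m:ℝ) + 1))) ^ 2
      ≤ 4 * A - 4 * A ^ 2 / (n + A) := by
    intro n
    induction n with
    | zero =>
      simp only [range_zero, sum_empty, Nat.cast_zero, zero_add]
      have : 4 * A ^ 2 / A = 4 * A := by field_simp
      rw [this]; simp
    | succ n ih =>
      rw [sum_range_succ]
      have hn : (0:ℝ) ≤ n := Nat.cast_nonneg n
      have h0 : 0 ≤ min 1 (A / ((n:ℝ) + 1)) := le_min (by norm_num) (by positivity)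
      have h1 : min 1 (A / ((n:ℝ) + 1)) ≤ 2 * A / (n + 1 + A) := by
        by_cases hc : (n:ℝ) + 1 ≤ A
        · refine (min_le_left _ _).trans ?_
          rw [le_div_iff₀ (by positivity)]; linarith
        · refine (min_le_right _ _).trans ?_
          push Not at hc
          rw [div_le_div_iff₀ (by positivity) (by positivity)]
          nlinarith
      have h2 : (min 1 (A / ((n:ℝ) + 1))) ^ 2 ≤ (2 * A / (n + 1 + A)) ^ 2 :=
        pow_le_pow_left₀ h0 h1 2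
      have h3 : (2 * A / (n + 1 + A)) ^ 2 ≤ 4 * A ^ 2 / (n + A) - 4 * A ^ 2 / (n + 1 + A) := by
        have e : 4 * A ^ 2 / (n + A) - 4 * A ^ 2 / (n + 1 + A)
            = 4 * A ^ 2 / ((n + A) * (n + 1 + A)) := by
          field_simp; ring
        rw [e, div_pow, div_le_div_iff₀ (by positivity) (by positivity)]
        have : 0 ≤ A ^ 2 * ((n:ℝ) + 1 + A) := by positivity
        nlinarith
      push_cast
      linarith
  refine (key n).trans ?_
  have : 0 ≤ 4 * A ^ 2 / (n + A) := by positivity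
  linarith

theorem sum_aw_sq (L : ℕ) (A : ℝ) (hA : 0 ≤ A) (n : ℕ) :
    ∑ k ∈ range n, aw L A k ^ 2 ≤ L + 1 + 4 * A := by
  calc ∑ k ∈ range n, aw L A k ^ 2 ≤ ∑ k ∈ range (L + 1 + n), aw L A k ^ 2 :=
        sum_le_sum_of_subset_of_nonneg (range_mono (by omega)) fun _ _ _ => sq_nonneg _
    _ = ∑ k ∈ range (L + 1), aw L A k ^ 2 + ∑ m ∈ range n, aw L A (L + 1 + m) ^ 2 :=
        sum_range_add _ _ _
    _ ≤ _ := by
        apply add_le_add
        · have : ∀ k ∈ range (L + 1), aw L A k ^ 2 = 1 := by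
            intro k hk
            have : k ≤ L := by have := mem_range.1 hk; omega
            simp [aw, this]
          rw [sum_congr rfl this]; simp
        · refine le_trans (le_of_eq ?_) (sum_min_sq A hA n)
          apply sum_congr rfl
          intro m _
          have : ¬ (L + 1 + m ≤ L) := by omega
          simp only [aw, this, if_false]
          congr 3
          push_cast; ring

/-- (C1), model-free. -/
theorem c1_core (D N L kap : ℕ) (Cst e B : ℝ) (φ : ℕ → ℂ[X] →ₗ[ℂ] ℂ) (n : ℕ → ℝ)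
    (hN : 1 ≤ N) (hC : 0 ≤ Cst) (he : 0 ≤ e) (hB : 0 ≤ B)
    (hn : ∀ k p, p.natDegree ≤ D → ‖φ k p‖ ≤ n k * L2 p)
    (hsum : ∑ k ∈ range kap, n k ^ 2 ≤ B ^ 2)
    (hper : ∀ (j k : ℕ) (h : ℂ[X]), 2 * j + 1 ≤ max 5 N → h.natDegree ≤ D → X ^ (2 * j + 1) ∣ h →
      (L:ℝ) + Cst / ((j:ℝ) + 1 / 2) ^ 4 ≤ k → ‖φ k h‖ ≤ e * L2 h)
    (P : ℂ[X]) (h5 : X ^ 5 ∣ P) (hdeg : P.natDegree + N ≤ D) :
    ‖∑ k ∈ range kap, φ k P‖ ≤
      (kap * e + B * Real.sqrt (L + 1 + 4 * (6144 * 81 * Cst / (N:ℝ) ^ 4))) *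
        L2 (derivative^[5] P) := by
  classical
  set M := L2 (derivative^[5] P) with hMdef
  set A := 6144 * 81 * Cst / (N:ℝ) ^ 4 with hAdef
  have hM : 0 ≤ M := L2_nonneg _
  have hN' : (0:ℝ) < N := by exact_mod_cast hN
  have hA : 0 ≤ A := by positivity
  have hP : L2 P ≤ M := L2_le_deriv5 P h5
  have hPD : P.natDegree ≤ D := by omega
  have main : ∀ k, ∃ h : ℂ[X], h.natDegree ≤ D ∧ ‖φ k h‖ ≤ e * M ∧ L2 (P - h) ≤ aw L A k * M := by
    intro k
    by_cases hk : k ≤ L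
    · refine ⟨0, by simp, by simpa using mul_nonneg he hM, ?_⟩
      simpa [aw, hk] using hP
    have hkL : (1:ℝ) ≤ (k:ℝ) - L := by
      have : L + 1 ≤ k := by omega
      have : ((L + 1 : ℕ) : ℝ) ≤ k := by exact_mod_cast this
      push_cast at this; linarith
    have haw : aw L A k = min 1 (A / ((k:ℝ) - L)) := by simp [aw, hk]
    have haw0 : 0 ≤ aw L A k := by
      rw [haw]; exact le_min (by norm_num) (div_nonneg hA (by linarith))
    have hex : ∃ j : ℕ, (L:ℝ) + Cst / ((j:ℝ) + 1 / 2) ^ 4 ≤ k := by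
      obtain ⟨j, hj⟩ := exists_nat_ge (Cst + 1)
      refine ⟨j, ?_⟩
      have h1 : (1:ℝ) ≤ (j:ℝ) + 1 / 2 := by linarith
      have h2 : (j:ℝ) + 1 / 2 ≤ ((j:ℝ) + 1 / 2) ^ 4 := le_self_pow₀ h1 (by norm_num)
      have h3 : Cst / ((j:ℝ) + 1 / 2) ^ 4 ≤ 1 := by
        rw [div_le_one (by positivity)]; linarith
      linarith
    set j := Nat.find hex with hjdef
    have hj : (L:ℝ) + Cst / ((j:ℝ) + 1 / 2) ^ 4 ≤ k := Nat.find_spec hex
    by_cases hj2 : j ≤ 2
    · refine ⟨P, hPD, ?_, ?_⟩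
      · refine (hper j k P (le_trans (by omega) (le_max_left _ _)) hPD
          ((pow_dvd_pow X (by omega)).trans h5) hj).trans ?_
        exact mul_le_mul_of_nonneg_left hP he
      · rw [sub_self, L2_zero]; exact mul_nonneg haw0 hM
    -- j ≥ 3
    have hmin : ¬ ((L:ℝ) + Cst / (((j - 1 : ℕ):ℝ) + 1 / 2) ^ 4 ≤ k) :=
      Nat.find_min hex (by omega)
    have hj3 : (3:ℝ) ≤ j := by exact_mod_cast (by omega : 3 ≤ j)
    have hc : (((j - 1 : ℕ):ℝ) + 1 / 2) = (j:ℝ) - 1 / 2 := by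
      rw [Nat.cast_sub (by omega)]; push_cast; ring
    rw [hc] at hmin
    push Not at hmin
    have hpos : 0 < ((j:ℝ) - 1 / 2) ^ 4 := pow_pos (by linarith) 4
    have h1 : ((k:ℝ) - L) * ((j:ℝ) - 1 / 2) ^ 4 ≤ Cst := by
      have : (k:ℝ) - L ≤ Cst / ((j:ℝ) - 1 / 2) ^ 4 := by linarith
      rwa [le_div_iff₀ hpos] at this
    have h2 : ((2 * j + 1 : ℕ) : ℝ) ^ 4 ≤ 81 * ((j:ℝ) - 1 / 2) ^ 4 := by
      have : ((2 * j + 1 : ℕ) : ℝ) ≤ 3 * ((j:ℝ) - 1 / 2) := by push_cast; linarith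
      calc _ ≤ (3 * ((j:ℝ) - 1 / 2)) ^ 4 := pow_le_pow_left₀ (Nat.cast_nonneg _) this 4
        _ = _ := by ring
    have h3 : 6144 * ((((2 * j + 1 : ℕ) : ℝ)) / N) ^ 4 ≤ A / ((k:ℝ) - L) := by
      rw [le_div_iff₀ (by linarith), hAdef, div_pow, le_div_iff₀ (by positivity)]
      have e1 : 6144 * (((2 * j + 1 : ℕ) : ℝ) ^ 4 / (N:ℝ) ^ 4) * ((k:ℝ) - L) * (N:ℝ) ^ 4
          = 6144 * (((2 * j + 1 : ℕ) : ℝ) ^ 4 * ((k:ℝ) - L)) := by
        field_simp
      rw [e1]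
      have : ((2 * j + 1 : ℕ) : ℝ) ^ 4 * ((k:ℝ) - L) ≤ 81 * ((j:ℝ) - 1 / 2) ^ 4 * ((k:ℝ) - L) :=
        mul_le_mul_of_nonneg_right h2 (by linarith)
      nlinarith
    by_cases hJN : 2 * j + 1 ≤ N
    · obtain ⟨h, hd, hdv, hL, hPh⟩ := cutoff' P h5 N (2 * j + 1) hN
      refine ⟨h, by omega, ?_, ?_⟩
      · refine (hper j k h (hJN.trans (le_max_right _ _)) (by omega) hdv hj).trans ?_
        exact mul_le_mul_of_nonneg_left hL he
      · refine hPh.trans (mul_le_mul_of_nonneg_right ?_ hM)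
        rw [haw]; exact min_le_min le_rfl h3
    · refine ⟨0, by simp, by simpa using mul_nonneg he hM, ?_⟩
      have h4 : (1:ℝ) ≤ (((2 * j + 1 : ℕ) : ℝ)) / N := by
        rw [le_div_iff₀ hN', one_mul]; exact_mod_cast (by omega : N ≤ 2 * j + 1)
      have h5' : (1:ℝ) ≤ ((((2 * j + 1 : ℕ) : ℝ)) / N) ^ 4 := one_le_pow₀ h4
      have : aw L A k = 1 := by rw [haw]; exact min_eq_left (by linarith)
      rw [this]; simpa using hP
  have aw0 : ∀ k, 0 ≤ aw L A k := by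
    intro k
    by_cases hk : k ≤ L
    · simp [aw, hk]
    · have : (L:ℝ) ≤ k := by exact_mod_cast (by omega : L ≤ k)
      simp only [aw, hk, if_false]
      exact le_min (by norm_num) (div_nonneg hA (by linarith))
  have each : ∀ k, ‖φ k P‖ ≤ e * M + |n k| * aw L A k * M := by
    intro k
    obtain ⟨h, hd, h1, h2⟩ := main k
    have e1 : φ k P = φ k h + φ k (P - h) := by rw [map_sub]; ring
    have hd2 : (P - h).natDegree ≤ D := (natDegree_sub_le _ _).trans (max_le hPD hd)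
    have h3 : ‖φ k (P - h)‖ ≤ |n k| * aw L A k * M := by
      refine (hn k _ hd2).trans ?_
      calc n k * L2 (P - h) ≤ |n k| * L2 (P - h) :=
            mul_le_mul_of_nonneg_right (le_abs_self _) (L2_nonneg _)
        _ ≤ |n k| * (aw L A k * M) := mul_le_mul_of_nonneg_left h2 (abs_nonneg _)
        _ = _ := by ring
    rw [e1]
    exact (norm_add_le _ _).trans (add_le_add h1 h3)
  have cs : ∑ k ∈ range kap, |n k| * aw L A k ≤ B * Real.sqrt (L + 1 + 4 * A) := by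
    refine (Real.sum_mul_le_sqrt_mul_sqrt _ _ _).trans ?_
    apply mul_le_mul _ (Real.sqrt_le_sqrt (sum_aw_sq L A hA kap)) (Real.sqrt_nonneg _) hB
    apply Real.sqrt_le_iff.2 ⟨hB, ?_⟩
    simpa [sq_abs] using hsum
  calc ‖∑ k ∈ range kap, φ k P‖ ≤ ∑ k ∈ range kap, ‖φ k P‖ := norm_sum_le _ _
    _ ≤ ∑ k ∈ range kap, (e * M + |n k| * aw L A k * M) := sum_le_sum fun k _ => each k
    _ = kap * e * M + (∑ k ∈ range kap, |n k| * aw L A k) * M := by
        rw [sum_add_distrib, sum_mul]; simp; ring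
    _ ≤ kap * e * M + B * Real.sqrt (L + 1 + 4 * A) * M := by
        have := mul_le_mul_of_nonneg_right cs hM
        linarith
    _ = _ := by ring

end IS52
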